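import Mathlib
import Pool.Agent.MP_3bb15c_gt.Example

set_option autoImplicit false

namespace Pool.Agent.Results.MP_3bb15c_gt.RegularCounterexample

/-- There is a regular Hausdorff s-complete topological semilattice with a continuous
homomorphism into a Hausdorff topological semigroup whose image is not closed. -/
theorem result :
    ∃ (X : Type) (_ : TopologicalSpace X) (_ : SemilatticeInf X),
      ContinuousInf X ∧ T2Space X ∧ RegularSpace X ∧
      (∀ S : Set X, S.Nonempty → InfClosed S →
        ∃ m : X, IsGLB S m ∧ m ∈ closure (upperClosure S : Set X)) ∧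
      (∀ C : Set X, C.Nonempty → IsChain (· ≤ ·) C →
        ∃ m : X, IsLUB C m ∧ m ∈ closure (lowerClosure C : Set X)) ∧
      ∃ (Y : Type) (_ : TopologicalSpace Y) (_ : Semigroup Y),
        ContinuousMul Y ∧ T2Space Y ∧
        ∃ h : X → Y, Continuous h ∧ (∀ a b : X, h (a ⊓ b) = h a * h b) ∧
          ¬ IsClosed (Set.range h) := by
  refine ⟨Pool.Agent.MP_3bb15c_gt.X, inferInstance, inferInstance, inferInstance, inferInstance,
    inferInstance, fun S hS hinf => ?_, Pool.Agent.MP_3bb15c_gt.sup_complete,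
    Pool.Agent.MP_3bb15c_gt.Y, inferInstance,
    { mul := fun a b => a ⊓ b, mul_assoc := inf_assoc }, ?_, inferInstance,
    Pool.Agent.MP_3bb15c_gt.incl, Pool.Agent.MP_3bb15c_gt.incl_continuous,
    Pool.Agent.MP_3bb15c_gt.incl_inf, Pool.Agent.MP_3bb15c_gt.not_isClosed_range⟩
  · obtain ⟨m, h1, h2⟩ := Pool.Agent.MP_3bb15c_gt.inf_complete S hS hinf
    exact ⟨m, h1, closure_mono subset_upperClosure h2⟩
  · exact @ContinuousMul.mk _ _ ⟨fun a b => a ⊓ b⟩ continuous_inf

end Pool.Agent.Results.MP_3bb15c_gt.RegularCounterexample
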